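import Pool.Agent.H87.CLG.Targets

/-!
ACI: ascending chains of stable ideals are finite (row ACI of the board lgr_modules,
MP_335823_al).
-/

set_option autoImplicit false

open MvPolynomial
open scoped commutatorElement

namespace Pool.Agent.H89.CLG

open Pool.Agent.H87.CLG

universe u v

theorem pf_ACI (h : T_ACM) : T_ACI := by
  intro Λ _ I hI hm
  obtain ⟨N, hN⟩ := h Λ 1
    (fun j => Submodule.comap (LinearMap.proj (0 : Fin 1) : (Fin 1 → PR Λ) →ₗ[PR Λ] PR Λ) (I j))
    (fun j σ hσ f hf => hI j σ hσ (f 0) hf)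
    (fun i j hij => Submodule.comap_mono (hm hij))
  refine ⟨N, fun j hj => ?_⟩
  have h1 := hN j hj
  ext x
  have h2 := SetLike.ext_iff.1 h1 (fun _ => x)
  exact h2

end Pool.Agent.H89.CLG
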